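import Pool.Agent.Helper87.RP.Defs

/-!
# MP_4e034d_co, module C1: removing a balanced set
-/

namespace Pool.Agent.Helper97.RP

open Finset Pool.Agent.Helper87.RP

variable {V : Type}

/-- module C1: removing a balanced set. -/
theorem idx_sdiff [DecidableEq V] {s : V → V → ℝ} (hs : Sg s) {S t : Finset V} {k : ℕ}
    (h : Idx s S (k + 1)) {e : V → ℝ} (ht : Bal s e t) : Idx s (S \ t) k := by
  intro F
  obtain ⟨t', e', w, hsub, hne, hbal, hw, hsum⟩ := h (fun u =>
    if u ∈ t then (Fin.cons (e u) (0 : Fin k → ℝ) : Fin (k + 1) → ℝ)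
    else (Fin.cons 0 (F u) : Fin (k + 1) → ℝ))
  have hdis : ∀ u ∈ t', u ∉ t := by
    intro a hat' hat
    have h0 := congrFun hsum 0
    simp only [Finset.sum_apply, Pi.smul_apply, smul_eq_mul, Pi.zero_apply] at h0
    have hterm : ∀ u ∈ t', (w u * e' u) * ((if u ∈ t then (Fin.cons (e u) (0 : Fin k → ℝ) : Fin (k + 1) → ℝ)
        else (Fin.cons 0 (F u) : Fin (k + 1) → ℝ)) 0)
        = (e' a * e a) * (if u ∈ t then w u else 0) := by
      intro u hu
      by_cases hut : u ∈ t
      · simp only [hut, if_true, Fin.cons_zero]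
        have h1 := hbal.2 u hu a hat'
        have h2 := ht.2 u hut a hat
        have h3 : e' u * e' a = e u * e a := by rw [← h1, ← h2]
        have h4 : e' u * e u = e' a * e a := by
          rcases hbal.1 u hu with q1 | q1 <;> rcases hbal.1 a hat' with q2 | q2 <;>
          rcases ht.1 u hut with q3 | q3 <;> rcases ht.1 a hat with q4 | q4 <;>
          (rw [q1, q2, q3, q4] at h3; rw [q1, q2, q3, q4]; all_goals first | (norm_num; done) | (norm_num at h3; done))
        calc w u * e' u * e u = w u * (e' u * e u) := by ring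
          _ = (e' a * e a) * w u := by rw [h4]; ring
      · simp [hut]
    rw [Finset.sum_congr rfl hterm, ← Finset.mul_sum] at h0
    have hpos : 0 < ∑ u ∈ t', (if u ∈ t then w u else 0) := by
      refine Finset.sum_pos' (fun u hu => ?_) ⟨a, hat', ?_⟩
      · split_ifs
        · exact (hw u hu).le
        · exact le_rfl
      · simp only [hat, if_true]
        exact hw a hat'
    rcases mul_eq_zero.mp h0 with h1 | h1
    · rcases hbal.1 a hat' with q2 | q2 <;> rcases ht.1 a hat with q4 | q4 <;>
        rw [q2, q4] at h1 <;> norm_num at h1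
    · exact absurd h1 hpos.ne'
  refine ⟨t', e', w, fun u hu => Finset.mem_sdiff.mpr ⟨hsub hu, hdis u hu⟩, hne, hbal, hw, ?_⟩
  funext j
  have hj := congrFun hsum j.succ
  simp only [Finset.sum_apply, Pi.smul_apply, smul_eq_mul, Pi.zero_apply] at hj ⊢
  rw [← hj]
  refine Finset.sum_congr rfl fun u hu => ?_
  simp [hdis u hu]

end Pool.Agent.Helper97.RP
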